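import Pool.Agent.X308.U.Main

/-!
# Polarization
-/

set_option autoImplicit false

universe u v w

namespace Pool.Agent.X308.U

open CategoryTheory Pool.Agent.H914 Pool.Agent.H914.VarClass Pool.Agent.H914.VarClass.Obj
  Pool.Agent.W492.BB Pool.Agent.W550.Corr Pool.Agent.TH133 Pool.Agent.Y148.BB Pool.Agent.X308.S

set_option linter.unusedSectionVars false

section algebra

/-- A polynomial with coefficients in a vector space which vanishes for all values is zero. -/
lemma coeff_zero {M : Type*} [AddCommGroup M] [Module ℚ M] {N : ℕ} {a : ℕ → M}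
    (h : ∀ t : ℚ, ∑ i ∈ Finset.range N, t ^ i • a i = 0) : ∀ i < N, a i = 0 := by
  intro i hi
  rw [← Module.forall_dual_apply_eq_zero_iff ℚ]
  intro φ
  let p : Polynomial ℚ := ∑ i ∈ Finset.range N, Polynomial.C (φ (a i)) * Polynomial.X ^ i
  have hp : p = 0 := by
    apply Polynomial.funext
    intro t
    simp only [p, Polynomial.eval_finset_sum, Polynomial.eval_mul, Polynomial.eval_C,
      Polynomial.eval_pow, Polynomial.eval_X, Polynomial.eval_zero]
    have h1 := congrArg φ (h t)
    rw [map_sum, map_zero] at h1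
    rw [← h1]
    refine Finset.sum_congr rfl fun i _ => ?_
    rw [map_smul, smul_eq_mul, mul_comm]
  have h2 : p.coeff i = φ (a i) := by
    simp only [p, Polynomial.finset_sum_coeff, Polynomial.coeff_C_mul, Polynomial.coeff_X_pow]
    rw [Finset.sum_eq_single i]
    · rw [if_pos rfl, mul_one]
    · intro j _ hj
      rw [if_neg (Ne.symm hj), mul_zero]
    · intro h3
      exact absurd (Finset.mem_range.2 hi) h3
  rw [← h2, hp, Polynomial.coeff_zero]

/-- If the `d`-th powers of the elements of a subspace of a commutative algebra are zero, so are the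
products of `d` elements. -/
lemma polarize {R : Type*} [Ring R] [Algebra ℚ R] (hc : ∀ a b : R, a * b = b * a)
    (U : Submodule ℚ R) {d : ℕ} (h : ∀ s ∈ U, s ^ d = 0) (m : ℕ) (hm : m ≤ d) :
    ∀ s ∈ U, ∀ l : List R, l.length = m → (∀ y ∈ l, y ∈ U) → s ^ (d - m) * l.prod = 0 := by
  induction m with
  | zero =>
    intro s hs l hl _
    rw [List.length_eq_zero_iff] at hl
    subst hl
    rw [Nat.sub_zero, h s hs, zero_mul]
  | succ m ih =>
    intro s hs l hl hl'
    cases l with
    | nil => simp at hl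
    | cons y l =>
      have hy := hl' y List.mem_cons_self
      have hlU : ∀ y ∈ l, y ∈ U := fun z hz => hl' z (List.mem_cons_of_mem _ hz)
      have hlm : l.length = m := by simpa using hl
      set n := d - m with hn
      have hn1 : 1 ≤ n := by omega
      have h1 : ∀ t : ℚ, ∑ i ∈ Finset.range (n + 1),
          t ^ i • (y ^ i * s ^ (n - i) * (n.choose i : R) * l.prod) = 0 := by
        intro t
        have h2 := ih (by omega) (t • y + s) (U.add_mem (U.smul_mem t hy) hs) l hlm hlU
        have hcs : Commute (t • y) s := hc (t • y) s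
        rw [hcs.add_pow, Finset.sum_mul] at h2
        rw [← h2]
        refine Finset.sum_congr rfl fun i _ => ?_
        rw [smul_pow, smul_mul_assoc, smul_mul_assoc, smul_mul_assoc]
      have h2 := coeff_zero h1 1 (by omega)
      rw [pow_one, Nat.choose_one_right, List.prod_cons] at *
      have h3 : (n : ℚ) • (s ^ (d - (m + 1)) * (y * l.prod)) = 0 := by
        rw [← h2, Algebra.smul_def, map_natCast]
        have h4 : n - 1 = d - (m + 1) := by omega
        rw [h4, ← Nat.cast_comm n (y * s ^ (d - (m + 1))),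
          hc y (s ^ (d - (m + 1))), mul_assoc, mul_assoc]
      have h5 : (n : ℚ) ≠ 0 := by
        have : n ≠ 0 := by omega
        exact_mod_cast this
      exact smul_cancel h5 h3

end algebra

variable {k : Type u} [Field k] {𝒱 : VarClass k} {C : TheoryData.{u, v, 0} 𝒱 ℚ}
  [hC : IsChowProj C] {X Y Z W : 𝒱.Obj} {I : ∀ X : 𝒱.Obj, Submodule ℚ (C.A X)} {d : ℕ}

section maps

lemma IsPower.cons {n : ℕ} {X Q : 𝒱.Obj} {q : Fin n → (Q ⟶ X)} (h : IsPower q) :
    IsPower (X := X) (P := X.prod Q) (Fin.cons (fst X Q) (fun i => snd X Q ≫ q i)) where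
  exists_lift W f := by
    obtain ⟨g, hg⟩ := h.exists_lift W (fun i => f i.succ)
    refine ⟨Obj.lift (f 0) g, fun i => ?_⟩
    refine Fin.cases ?_ (fun i => ?_) i
    · rw [Fin.cons_zero]
      exact lift_fst _ _
    · rw [Fin.cons_succ, lift_snd_assoc, hg]
  ext W f g h1 := by
    apply prod_ext
    · have := h1 0
      rwa [Fin.cons_zero] at this
    · apply h.ext
      intro i
      have h2 := h1 i.succ
      rw [Fin.cons_succ] at h2
      rwa [Category.assoc, Category.assoc]

lemma exists_power (n : ℕ) (X : 𝒱.Obj) :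
    ∃ (P : 𝒱.Obj) (pr : Fin (n + 1) → (P ⟶ X)), IsPower pr := by
  induction n with
  | zero =>
    refine ⟨X, fun _ => 𝟙 X, ?_, ?_⟩
    · intro W f
      refine ⟨f 0, fun i => ?_⟩
      refine Fin.cases ?_ (fun i => i.elim0) i
      exact Category.comp_id _
    · intro W f g h
      have h0 : f ≫ 𝟙 X = g ≫ 𝟙 X := h 0
      rwa [Category.comp_id, Category.comp_id] at h0
  | succ n ih =>
    obtain ⟨Q, q, hq⟩ := ih
    exact ⟨_, _, hq.cons⟩

end maps

include hC

lemma ext_mul_ext (a a' : C.A X) (b b' : C.A Y) :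
    C.ext a b * C.ext a' b' = C.ext (a * a') (b * b') := by
  simp only [TheoryData.ext, map_mul]
  rw [mul_assoc, mul_assoc, ← mul_assoc (C.pull (snd X Y) b), ch_comm C (C.pull (snd X Y) b),
    mul_assoc]

lemma list_ext_prod (h : C.A W) (a : C.A X → ℕ) (l : List (C.A X)) :
    (l.map fun z => C.ext z (h ^ a z)).prod = C.ext l.prod (h ^ (l.map a).sum) := by
  induction l with
  | nil => simp [TheoryData.ext]
  | cons z l ih =>
    rw [List.map_cons, List.prod_cons, ih, ext_mul_ext, List.prod_cons, List.map_cons,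
      List.sum_cons, pow_add]

theorem products_of_powers (hI : IsCycleIdeal C I) (h : PowersVanish C I d) :
    ProductsVanish C I d := by
  intro X l hl hl'
  rcases Nat.eq_zero_or_pos d with hd | hd
  · subst hd
    rw [List.length_eq_zero_iff] at hl
    subst hl
    have h1 := h X 0 0 (I X).zero_mem (C.gr X 0).zero_mem
    rwa [pow_zero] at h1
  by_contra hne
  have hnz : ∀ z ∈ l, z ≠ 0 := fun z hz h0 => hne (List.prod_eq_zero (h0 ▸ hz))
  have hfac : ∀ z ∈ l, ∃ c : ℕ, C.Deg (c : ℤ) z ∧ c ≤ X.dim := by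
    intro z hz
    obtain ⟨h1, c, hc⟩ := hl' z hz
    have h2 := ideal_deg hI h1 hc (hnz z hz)
    refine ⟨c.toNat, ?_, by omega⟩
    rw [Int.toNat_of_nonneg (by omega)]
    exact hc
  choose! c hc hcX using hfac
  have hX : 1 ≤ X.dim := by
    obtain ⟨z, hz⟩ := List.exists_mem_of_length_pos (by omega : 0 < l.length)
    obtain ⟨h1, c, hc⟩ := hl' z hz
    have h2 := ideal_deg hI h1 hc (hnz z hz)
    omega
  obtain ⟨W, hWd⟩ := exists_dim (C := C) hX (d * X.dim)
  obtain ⟨h', q, h1, hq, hdeg⟩ := exists_h hI W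
  let a : C.A X → ℕ := fun z => X.dim - c z
  have hs : (l.map a).sum ≤ d * X.dim := by
    rw [← hl]
    have := List.sum_le_card_nsmul (l.map a) X.dim (by
      intro x hx
      obtain ⟨z, _, rfl⟩ := List.mem_map.1 hx
      exact Nat.sub_le _ _)
    rwa [List.length_map, smul_eq_mul] at this
  let U : Submodule ℚ (C.A (X.prod W)) := I (X.prod W) ⊓ C.gr (X.prod W) X.dim
  have hU : ∀ s ∈ U, s ^ d = 0 := fun s hs => h _ s _ hs.1 hs.2
  have h3 := polarize (fun a b => ch_comm C a b) U hU d le_rfl 0 U.zero_mem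
    (l.map fun z => C.ext z (h' ^ a z)) (by rw [List.length_map, hl]) (by
      intro y hy
      obtain ⟨z, hz, rfl⟩ := List.mem_map.1 hy
      refine ⟨?_, ?_⟩
      · exact mul_right_mem hI (hI.pull _ _ (hl' z hz).1)
      · have h4 := ext_mem' (hc z hz) (pow_mem_gr h1 (a z))
        have h5 : (c z : ℤ) + (a z : ℕ) = X.dim := by
          have := hcX z hz
          simp only [a]
          omega
        rwa [h5] at h4)
  rw [Nat.sub_self, pow_zero, one_mul, list_ext_prod] at h3
  have h6 : C.push (fst X W) (C.ext l.prod (h' ^ (l.map a).sum) *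
      C.pull (snd X W) (h' ^ (W.dim - (l.map a).sum))) = q • l.prod := by
    have h7 : HasDegree C (h' ^ (l.map a).sum * h' ^ (W.dim - (l.map a).sum)) q := by
      rw [← pow_add, Nat.add_sub_cancel' (le_trans hs hWd)]
      exact hdeg
    rw [TheoryData.ext, mul_assoc, ← map_mul, C.proj_left, (h7 X).2, mul_smul_comm, mul_one]
  rw [h3, zero_mul, map_zero] at h6
  exact hne (smul_cancel hq h6.symm)

theorem powers_of_products (h : ProductsVanish C I d) : PowersVanish C I d := by
  intro X z c h1 h2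
  rw [← List.prod_replicate]
  refine h X _ List.length_replicate fun z' hz' => ?_
  rw [List.eq_of_mem_replicate hz']
  exact ⟨h1, c, h2⟩

theorem smash_of_products (hI : IsCycleIdeal C I) (h : ProductsVanish C I d) :
    SmashPowersVanish C I d := by
  intro X z c h1 h2 P pr _
  refine h P _ List.length_ofFn fun z' hz' => ?_
  obtain ⟨i, rfl⟩ := (List.mem_ofFn' _ _).1 hz'
  exact ⟨hI.pull _ _ h1, c, C.pull_mem _ h2⟩

theorem powers_of_smash (hd : 1 ≤ d) (h : SmashPowersVanish C I d) : PowersVanish C I d := by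
  obtain ⟨d, rfl⟩ : ∃ e, d = e + 1 := ⟨d - 1, by omega⟩
  intro X z c h1 h2
  obtain ⟨P, pr, hP⟩ := exists_power d X
  obtain ⟨g, hg⟩ := hP.exists_lift X (fun _ => 𝟙 X)
  have h3 := congrArg (C.pull g) (h X z c h1 h2 P pr hP)
  rw [map_zero, map_list_prod, List.map_ofFn] at h3
  have h4 : (⇑(C.pull g) ∘ fun i => C.up (pr i) z) = fun _ => z := by
    funext i
    change C.pull g (C.pull (pr i) z) = z
    rw [← C.pull_comp, hg, C.pull_id]
  rwa [h4, List.ofFn_const, List.prod_replicate] at h3

lemma one_cancel (h1 : ∀ X : 𝒱.Obj, (1 : C.A X) ≠ 0) {x : C.A X} {q r : ℚ}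
    (hq : HasDegree C x q) (hr : HasDegree C x r) : q = r := by
  by_contra h
  have h2 : (q - r) • (1 : C.A X) = 0 := by
    rw [sub_smul, ← (hq X).1, ← (hr X).1, sub_self]
  exact h1 X (smul_cancel (sub_ne_zero.2 h) h2)

lemma hasDegree_of_push (h1 : ∀ X : 𝒱.Obj, (1 : C.A X) ≠ 0) (f : X ⟶ Y) {x : C.A X} {q : ℚ}
    (h : HasDegree C (C.push f x) q) : HasDegree C x q := by
  obtain ⟨r, hr⟩ := O.exists_degree x
  rwa [one_cancel h1 h (TH829.Prime.hasDegree_push f hr)]

/-- The numerically trivial cycles form a system of ideals. -/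
theorem numTrivial_isCycleIdeal (h1 : ∀ X : 𝒱.Obj, (1 : C.A X) ≠ 0) :
    ∃ I : ∀ X : 𝒱.Obj, Submodule ℚ (C.A X),
      IsCycleIdeal C I ∧ ∀ X, (I X : Set (C.A X)) = numTrivial C X := by
  have hadd : ∀ (X : 𝒱.Obj) (x y : C.A X), x ∈ numTrivial C X → y ∈ numTrivial C X →
      x + y ∈ numTrivial C X := by
    intro X x y hx hy z
    have := O.HasDegree.add' (hx z) (hy z)
    rwa [add_zero, ← mul_add] at this
  have hzero : ∀ X : 𝒱.Obj, (0 : C.A X) ∈ numTrivial C X := by
    intro X z
    change HasDegree C (z * 0) 0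
    rw [mul_zero]
    exact hasDegree_zero
  have hsmul : ∀ (X : 𝒱.Obj) (q : ℚ) (x : C.A X), x ∈ numTrivial C X →
      q • x ∈ numTrivial C X := by
    intro X q x hx z
    have := O.HasDegree.smul' q (hx z)
    rwa [mul_zero, ← mul_smul_comm] at this
  refine ⟨fun X => ⟨⟨⟨numTrivial C X, fun {x y} => hadd X x y⟩, hzero X⟩,
    fun q x => hsmul X q x⟩, ⟨?_, ?_, ?_, ?_⟩, fun _ => rfl⟩
  · intro X a z hz y
    have := hz (y * a)
    change HasDegree C (y * a * z) 0 at this
    change HasDegree C (y * (a * z)) 0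
    rwa [← mul_assoc]
  · intro X Y f z hz y
    apply hasDegree_of_push h1 f
    change HasDegree C (C.push f (y * C.pull f z)) 0
    rw [C.proj_right]
    exact hz _
  · intro X Y f z hz y
    change HasDegree C (y * C.push f z) 0
    rw [← C.proj_left]
    exact TH829.Prime.hasDegree_push f (hz _)
  · intro X h2
    obtain ⟨a, _, ha, ha'⟩ := exists_deg_one C X
    have h3 : HasDegree C (a * 1) 0 := h2 a
    rw [mul_one] at h3
    have h4 : HasDegree C a 1 := fun Z => ⟨by rw [one_smul]; exact ha' Z,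
      by rw [one_smul]; exact ha Z⟩
    exact zero_ne_one (one_cancel h1 h3 h4)

/-- **Main theorem.** -/
theorem uniform (hI : IsCycleIdeal C I) (hd : 1 ≤ d) :
    List.TFAE [ProductsVanish C I d, PowersVanish C I d, SmashPowersVanish C I d,
      CompositionsVanish C I d, CorrPowersVanish C I d,
      ∃ (f : List ℕ →₀ ℚ) (w : List ℕ), w.length = d ∧ f w ≠ 0 ∧ SatisfyIdentity C I f] := by
  tfae_have 1 → 4 := compositions_of_products hI
  tfae_have 4 → 5 := powers_of_compositions
  tfae_have 5 → 6 := identity_of_powers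
  tfae_have 6 → 1 := by
    rintro ⟨f, w, rfl, hw, hf⟩
    exact products_of_identity hI hf hw hd
  tfae_have 1 → 3 := smash_of_products hI
  tfae_have 3 → 2 := powers_of_smash hd
  tfae_have 2 → 1 := products_of_powers hI
  tfae_finish

end Pool.Agent.X308.U
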