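import Pool.Agent.TH133.Defs
import Mathlib.Data.Finsupp.Basic

/-!
# Uniform smash exponents and polynomial identities: definitions
-/

set_option autoImplicit false

open CategoryTheory

universe u v

namespace Pool.Agent.X308.U

open Pool.Agent.H914 Pool.Agent.W492.BB Pool.Agent.W550.Corr Pool.Agent.TH133

variable {k : Type u} [Field k] {𝒱 : VarClass k} (C : TheoryData.{u, v, 0} 𝒱 ℚ)

/-- A system of subspaces `I(X)` of the Chow rings, stable under products with all cycles,
pull-backs and push-forwards, which does not contain the fundamental classes. -/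
structure IsCycleIdeal (I : ∀ X : 𝒱.Obj, Submodule ℚ (C.A X)) : Prop where
  mul : ∀ {X : 𝒱.Obj} (a z : C.A X), z ∈ I X → C.mul a z ∈ I X
  pull : ∀ {X Y : 𝒱.Obj} (f : X ⟶ Y) (z : C.A Y), z ∈ I Y → C.up f z ∈ I X
  push : ∀ {X Y : 𝒱.Obj} (f : X ⟶ Y) (z : C.A X), z ∈ I X → C.down f z ∈ I Y
  proper : ∀ X : 𝒱.Obj, (1 : C.A X) ∉ I X

/-- The numerically trivial cycles: those `x` with `deg (y · x) = 0` for all `y`. -/
def numTrivial (X : 𝒱.Obj) : Set (C.A X) := {x | ∀ y : C.A X, HasDegree C (C.mul y x) 0}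

/-- The variety `P`, with the morphisms `pr i : P ⟶ X`, is the `d`-fold product of `X`. -/
structure IsPower {d : ℕ} {X P : 𝒱.Obj} (pr : Fin d → (P ⟶ X)) : Prop where
  exists_lift : ∀ (W : 𝒱.Obj) (f : Fin d → (W ⟶ X)), ∃ g : W ⟶ P, ∀ i, g ≫ pr i = f i
  ext : ∀ (W : 𝒱.Obj) (f g : W ⟶ P), (∀ i, f ≫ pr i = g ≫ pr i) → f = g

/-- The monomial `w` in the self-correspondences `x 0, x 1, …` of `X`: their composition (the first
letter of `w` acts first). -/
noncomputable def compWord {X : 𝒱.Obj} (x : ℕ → C.A (X.prod X)) : List ℕ → C.A (X.prod X)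
  | [] => dg C X
  | i :: w => C.comp (x i) (compWord x w)

/-- The value of the noncommutative polynomial `f` (with rational coefficients, `f w` is the
coefficient of the monomial `w`) at the self-correspondences `x 0, x 1, …` of `X`. -/
noncomputable def compPoly {X : 𝒱.Obj} (x : ℕ → C.A (X.prod X)) (f : List ℕ →₀ ℚ) :
    C.A (X.prod X) :=
  f.sum fun w c => c • compWord C x w

variable (I : ∀ X : 𝒱.Obj, Submodule ℚ (C.A X)) (d : ℕ)

/-- All products of `d` homogeneous cycles in `I(X)` are zero, for all `X`. -/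
def ProductsVanish : Prop :=
  ∀ (X : 𝒱.Obj) (l : List (C.A X)), l.length = d → (∀ z ∈ l, z ∈ I X ∧ ∃ c, C.Deg c z) →
    l.prod = 0

/-- The `d`-th powers of the homogeneous cycles in `I(X)` are zero, for all `X`. -/
def PowersVanish : Prop :=
  ∀ (X : 𝒱.Obj) (z : C.A X) (c : ℤ), z ∈ I X → C.Deg c z → z ^ d = 0

/-- The `d`-fold external products `z × ⋯ × z` on `X^d` of the homogeneous cycles in `I(X)` are
zero, for all `X`. -/
def SmashPowersVanish : Prop :=
  ∀ (X : 𝒱.Obj) (z : C.A X) (c : ℤ), z ∈ I X → C.Deg c z → ∀ (P : 𝒱.Obj) (pr : Fin d → (P ⟶ X)),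
    IsPower pr → (List.ofFn fun i => C.up (pr i) z).prod = 0

/-- All compositions of `d` self-correspondences of degree zero in `I(X × X)` are zero, for all
`X`. -/
def CompositionsVanish : Prop :=
  ∀ (X : 𝒱.Obj) (l : List (C.A (X.prod X))), l.length = d →
    (∀ Γ ∈ l, Γ ∈ I (X.prod X) ∧ C.Deg X.dim Γ) → compList C X l = 0

/-- The `d`-th powers (for the composition) of the self-correspondences of degree zero in `I(X × X)`
are zero, for all `X`. -/
def CorrPowersVanish : Prop :=
  ∀ (X : 𝒱.Obj) (Γ : C.A (X.prod X)), Γ ∈ I (X.prod X) → C.Deg X.dim Γ →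
    compList C X (List.replicate d Γ) = 0

/-- For all `X` the self-correspondences of degree zero in `I(X × X)` satisfy the polynomial identity
`f = 0`. -/
def SatisfyIdentity (f : List ℕ →₀ ℚ) : Prop :=
  ∀ (X : 𝒱.Obj) (x : ℕ → C.A (X.prod X)), (∀ i, x i ∈ I (X.prod X) ∧ C.Deg X.dim (x i)) →
    compPoly C x f = 0

end Pool.Agent.X308.U
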