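import Pool.Agent.X308.U.Defs
import Pool.Agent.X308.O.Main

/-!
# Uniform smash exponents and polynomial identities
-/

set_option autoImplicit false

universe u v w

namespace Pool.Agent.X308.U

open CategoryTheory Pool.Agent.H914 Pool.Agent.H914.VarClass Pool.Agent.H914.VarClass.Obj
  Pool.Agent.W492.BB Pool.Agent.W550.Corr Pool.Agent.TH133 Pool.Agent.Y148.BB Pool.Agent.X308.S

set_option linter.unusedSectionVars false

variable {k : Type u} [Field k] {𝒱 : VarClass k} {C : TheoryData.{u, v, 0} 𝒱 ℚ}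
  [hC : IsChowProj C] {X Y Z W : 𝒱.Obj} {I : ∀ X : 𝒱.Obj, Submodule ℚ (C.A X)} {d : ℕ}

include hC

lemma mul_right_mem (hI : IsCycleIdeal C I) {a z : C.A X} (hz : z ∈ I X) : z * a ∈ I X := by
  rw [ch_comm]
  exact hI.mul a z hz

/-! ### Products and compositions -/

/-- `y` is the push-forward of a product of `m` cycles in `I`. -/
def PushProd (I : ∀ X : 𝒱.Obj, Submodule ℚ (C.A X)) (m : ℕ) {X : 𝒱.Obj} (y : C.A X) : Prop :=
  ∃ (Z : 𝒱.Obj) (f : Z ⟶ X) (l : List (C.A Z)), l.length = m ∧
    (∀ z ∈ l, z ∈ I Z ∧ ∃ c, C.Deg c z) ∧ y = C.push f l.prod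

lemma PushProd.pull_t23 (hI : IsCycleIdeal C I) {m : ℕ} {y : C.A (Y.prod Z)}
    (hy : PushProd I m y) : PushProd I m (C.pull (t23 X Y Z) y) := by
  obtain ⟨V, f, l, h1, h2, rfl⟩ := hy
  have e1 : t23 X Y Z = aI X Y Z ≫ snd X (Y.prod Z) := by
    apply prod_ext <;> simp [aI, t23, comp_lift]
  refine ⟨X.prod V, prodMap (𝟙 X) f ≫ aJ X Y Z, l.map (C.pull (snd X V)), ?_, ?_, ?_⟩
  · rw [List.length_map, h1]
  · intro z hz
    obtain ⟨z', hz', rfl⟩ := List.mem_map.1 hz
    obtain ⟨h3, c, hc⟩ := h2 z' hz'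
    exact ⟨hI.pull _ _ h3, c, C.pull_mem _ hc⟩
  · rw [e1, C.pull_comp, C.base_snd, pull_iso C (aI X Y Z) (aJ X Y Z) aI_aJ aJ_aI,
      ← C.push_comp, map_list_prod]

lemma PushProd.cons_mul (hI : IsCycleIdeal C I) {m : ℕ} {y z : C.A X}
    (hy : PushProd I m y) (hz : z ∈ I X) {c : ℤ} (hc : C.Deg c z) : PushProd I (m + 1) (y * z) := by
  obtain ⟨V, f, l, h1, h2, rfl⟩ := hy
  refine ⟨V, f, C.pull f z :: l, ?_, ?_, ?_⟩
  · rw [List.length_cons, h1]
  · intro z' hz'
    rcases List.mem_cons.1 hz' with rfl | h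
    · exact ⟨hI.pull _ _ hz, c, C.pull_mem _ hc⟩
    · exact h2 z' h
  · rw [List.prod_cons, C.proj_left, ch_comm]

lemma PushProd.push' {m : ℕ} {y : C.A X} (hy : PushProd I m y) (f : X ⟶ Y) :
    PushProd I m (C.push f y) := by
  obtain ⟨V, g, l, h1, h2, rfl⟩ := hy
  exact ⟨V, g ≫ f, l, h1, h2, by rw [C.push_comp]⟩

lemma pushProd_compList (hI : IsCycleIdeal C I) (l : List (C.A (X.prod X)))
    (hl : ∀ Γ ∈ l, Γ ∈ I (X.prod X) ∧ C.Deg X.dim Γ) : PushProd I l.length (compList C X l) := by
  induction l with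
  | nil =>
    refine ⟨X, Obj.lift (𝟙 X) (𝟙 X), [], rfl, ?_, ?_⟩
    · intro z hz
      simp at hz
    · rw [compList, dg, TheoryData.graph, List.prod_nil]
  | cons Γ l ih =>
    rw [compList, TheoryData.comp, List.length_cons]
    have h1 := hl Γ (List.mem_cons_self)
    exact ((ih fun Γ' h => hl Γ' (List.mem_cons_of_mem _ h)).pull_t23 (X := X) hI |>.cons_mul hI
      (hI.pull _ _ h1.1) (C.pull_mem _ h1.2)).push' _

theorem compositions_of_products (hI : IsCycleIdeal C I) (h : ProductsVanish C I d) :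
    CompositionsVanish C I d := by
  intro X l hl hl'
  obtain ⟨V, f, l', h1, h2, h3⟩ := pushProd_compList hI l hl'
  rw [h3, h V l' (by rw [h1, hl]) h2, map_zero]

theorem powers_of_compositions (h : CompositionsVanish C I d) : CorrPowersVanish C I d := by
  intro X Γ h1 h2
  refine h X _ List.length_replicate fun Γ' hΓ' => ?_
  rw [List.eq_of_mem_replicate hΓ']
  exact ⟨h1, h2⟩

omit hC in
lemma compWord_eq (x : ℕ → C.A (X.prod X)) (w : List ℕ) :
    compWord C x w = compList C X (w.map x) := by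
  induction w with
  | nil => rfl
  | cons i w ih => rw [compWord, List.map_cons, compList, ih]

theorem identity_of_powers (h : CorrPowersVanish C I d) :
    ∃ (f : List ℕ →₀ ℚ) (w : List ℕ), w.length = d ∧ f w ≠ 0 ∧ SatisfyIdentity C I f := by
  classical
  refine ⟨Finsupp.single (List.replicate d 0) 1, List.replicate d 0, List.length_replicate, ?_,
    ?_⟩
  · rw [Finsupp.single_eq_same]
    exact one_ne_zero
  · intro X x hx
    rw [compPoly, Finsupp.sum_single_index (by rw [zero_smul]), one_smul, compWord_eq,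
      List.map_replicate]
    exact h X (x 0) (hx 0).1 (hx 0).2

/-! ### The main step -/

omit hC in
lemma smul_cancel {M : Type*} [AddCommGroup M] [Module ℚ M] {q : ℚ} (hq : q ≠ 0) {x : M}
    (h : q • x = 0) : x = 0 := by
  rw [← one_smul ℚ x, ← inv_mul_cancel₀ hq, mul_smul, h, smul_zero]

lemma exists_dim (hX : 1 ≤ X.dim) (s : ℕ) : ∃ W : 𝒱.Obj, s ≤ W.dim := by
  induction s with
  | zero => exact ⟨X, Nat.zero_le _⟩
  | succ s ih =>
    obtain ⟨W, hW⟩ := ih
    refine ⟨W.prod X, ?_⟩
    rw [dim_prod]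
    omega

lemma ideal_deg (hI : IsCycleIdeal C I) {z : C.A X} {c : ℤ} (hz : z ∈ I X) (hc : C.Deg c z)
    (h0 : z ≠ 0) : 1 ≤ c ∧ c ≤ X.dim := by
  constructor
  · by_contra h
    rcases lt_or_eq_of_le (not_lt.1 h : c ≤ 0) with h1 | h1
    · have h2 := C.gr_neg X c h1
      have h3 : z ∈ C.gr X c := hc
      rw [h2] at h3
      exact h0 ((Submodule.mem_bot _).1 h3)
    · subst h1
      obtain ⟨q, hq⟩ := hC.gr_zero X z hc
      have hq0 : q ≠ 0 := by
        rintro rfl
        exact h0 (by rw [hq, zero_smul])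
      apply hI.proper X
      have h2 := (I X).smul_mem q⁻¹ hz
      rwa [hq, smul_smul, inv_mul_cancel₀ hq0, one_smul] at h2
  · by_contra h
    exact h0 (hC.gr_top X c z hc (not_le.1 h))

lemma pow_mem_gr {h : C.A W} (hh : C.Deg 1 h) (m : ℕ) : h ^ m ∈ C.gr W m := by
  induction m with
  | zero =>
    rw [pow_zero]
    exact_mod_cast C.one_mem W
  | succ m ih =>
    rw [pow_succ]
    have := C.mul_mem ih hh
    exact_mod_cast this

lemma mulCorr_mem' {y : C.A X} {j : ℤ} (hy : y ∈ C.gr X j) :
    C.mulCorr y ∈ C.gr (X.prod X) (X.dim + j) := by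
  have := C.push_mem (Obj.lift (𝟙 X) (𝟙 X)) hy
  have e : j + 1 * (((X.prod X).dim : ℤ) - X.dim) = X.dim + j := by
    rw [dim_prod]; push_cast; ring
  rwa [e] at this

lemma exists_h (hI : IsCycleIdeal C I) (W : 𝒱.Obj) :
    ∃ (h : C.A W) (q : ℚ), C.Deg 1 h ∧ q ≠ 0 ∧ HasDegree C (h ^ W.dim) q := by
  obtain ⟨h, h1, q, hq, hq'⟩ := hC.polarized W
  obtain ⟨q', h2⟩ := exists_hasDegree (C := C) (pow_mem_gr h1 W.dim)
  refine ⟨h, q', h1, ?_, h2⟩
  rintro rfl
  have h3 : C.push (snd W W) (C.pull (fst W W) (h ^ W.dim)) = q • (1 : C.A W) := hq'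
  rw [(h2 W).1, zero_smul] at h3
  apply hI.proper W
  rw [smul_cancel hq h3.symm]
  exact (I W).zero_mem

lemma tens_mem_ideal (hI : IsCycleIdeal C I) {Γ : C.A (X.prod Y)} (Δ : C.A (Z.prod W))
    (hΓ : Γ ∈ I (X.prod Y)) : tens C Γ Δ ∈ I _ := by
  rw [tens]
  exact mul_right_mem hI (hI.pull _ _ hΓ)

/-- The main step. -/
theorem products_of_identity (hI : IsCycleIdeal C I) {f : List ℕ →₀ ℚ}
    (hf : SatisfyIdentity C I f) {w : List ℕ} (hw : f w ≠ 0) (hwd : 1 ≤ w.length) :
    ProductsVanish C I w.length := by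
  intro X l hl hl'
  by_contra hne
  set d := w.length with hdw
  have hnz : ∀ z ∈ l, z ≠ 0 := fun z hz h0 => hne (List.prod_eq_zero (h0 ▸ hz))
  -- the factors
  have hfac : ∀ i, i < d → ∃ (z : C.A X) (c : ℕ), l[i]? = some z ∧ z ∈ I X ∧ C.Deg (c : ℤ) z ∧
      1 ≤ c ∧ c ≤ X.dim := by
    intro i hi
    have hi' : i < l.length := by omega
    obtain ⟨h1, c, hc⟩ := hl' l[i] (List.getElem_mem hi')
    have h2 := ideal_deg hI h1 hc (hnz _ (List.getElem_mem hi'))
    refine ⟨l[i], c.toNat, List.getElem?_eq_getElem hi', h1, ?_, by omega, by omega⟩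
    rw [Int.toNat_of_nonneg (by omega)]
    exact hc
  choose! z c hz hzI hzc hc1 hcX using hfac
  have hX : 1 ≤ X.dim := le_trans (hc1 0 hwd) (hcX 0 hwd)
  -- the exponents
  let b : ℕ → ℕ := fun k => ∑ j ∈ Finset.Ico k d, c j
  have hb1 : ∀ k < d, b k = c k + b (k + 1) := fun k hk =>
    Finset.sum_eq_sum_Ico_succ_bot hk _
  have hbd : b d = 0 := by simp [b]
  have hb2 : ∀ m k, k + m < d → b (k + m + 1) < b k := by
    intro m
    induction m with
    | zero =>
      intro k hk
      have := hb1 k hk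
      have := hc1 k hk
      simp only [Nat.add_zero]
      omega
    | succ m ih =>
      intro k hk
      have h1 := ih k (by omega)
      have h2 := hb1 (k + m + 1) (by omega)
      have h3 : k + (m + 1) + 1 = k + m + 1 + 1 := by omega
      rw [h3]
      omega
  have hb : ∀ i k, i < k → k ≤ d → b k < b i := by
    intro i k hik hk
    obtain ⟨m, rfl⟩ : ∃ m, k = i + m + 1 := ⟨k - i - 1, by omega⟩
    exact hb2 m i (by omega)
  have hb0 : ∀ k ≤ d, b k ≤ b 0 := by
    intro k hk
    rcases Nat.eq_zero_or_pos k with rfl | h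
    · exact le_rfl
    · exact (hb 0 k h hk).le
  obtain ⟨W, hWd⟩ := exists_dim (C := C) hX (b 0)
  obtain ⟨h, q, h1, hq, hdeg⟩ := exists_h hI W
  set e := W.dim with he
  -- the partial products
  let p : ℕ → C.A X := fun m => (l.take m).prod
  have hp0 : p 0 = 1 := by simp [p]
  have hp : ∀ i < d, p (i + 1) = p i * z i := by
    intro i hi
    have hi' : i < l.length := by omega
    have h3 : l[i] = z i := by
      have := hz i hi
      rw [List.getElem?_eq_getElem hi'] at this
      exact Option.some.inj this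
    simp only [p]
    rw [List.prod_take_succ l i hi', h3]
  have hpd : p d = l.prod := by
    simp only [p]
    rw [← hl, List.take_length]
  -- the correspondences
  let Δ : ℕ → C.A ((X.prod W).prod (X.prod W)) := fun i =>
    tens C (C.mulCorr (z i)) (C.ext (h ^ (e - b i)) (h ^ (b (i + 1))))
  have hΔ : ∀ i < d, Δ i ∈ I _ ∧ C.Deg (X.prod W).dim (Δ i) := by
    intro i hi
    constructor
    · exact tens_mem_ideal hI _ (hI.push _ _ (hzI i hi))
    · have h3 := tens_mem C (mulCorr_mem' (hzc i hi))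
        (ext_mem' (pow_mem_gr h1 (e - b i)) (pow_mem_gr h1 (b (i + 1))))
      have h4 : (X.dim : ℤ) + c i + ((e - b i : ℕ) + (b (i + 1) : ℕ)) = (X.prod W).dim := by
        rw [dim_prod]
        have := hb1 i hi
        have := hb0 i hi.le
        push_cast
        omega
      rwa [h4] at h3
  let α : ℕ → C.A (X.prod W) := fun m => C.ext (p m) (h ^ (b m))
  have hactΔ : ∀ i < d, ∀ m ≤ d, C.act (Δ i) (α m) = if i = m then q • α (m + 1) else 0 := by
    intro i hi m hm
    simp only [Δ, α]
    rw [act_tens_ext C _ _ (fun _ _ => ch_comm C _ _), C.act_mulCorr]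
    by_cases him : i = m
    · subst him
      have h3 : HasDegree C (h ^ (e - b i) * h ^ b i) q := by
        rw [← pow_add, Nat.sub_add_cancel (le_trans (hb0 i hi.le) hWd)]
        exact hdeg
      rw [if_pos rfl, act_ext' h3, ext_smul_right, hp i hi, ch_comm C (z i)]
    · have h3 : HasDegree C (h ^ (e - b i) * h ^ b m) 0 := by
        rw [← pow_add]
        refine hasDegree_of_ne (pow_mem_gr h1 _) ?_
        have h4 : b i ≠ b m := by
          rcases lt_or_gt_of_ne him with h5 | h5
          · exact (hb i m h5 hm).ne'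
          · exact (hb m i h5 hi.le).ne
        have h5 := hb0 i hi.le
        omega
      rw [if_neg him, act_ext' h3, zero_smul, C.ext_zero_right]
  -- the linear form
  let φ : C.A (X.prod W) → C.A X := fun y => C.push (fst X W) (y * C.pull (snd X W) (h ^ e))
  have hφ0 : φ 0 = 0 := by simp [φ]
  have hφs : ∀ (r : ℚ) (y : C.A (X.prod W)), φ (r • y) = r • φ y := by
    intro r y
    simp only [φ]
    rw [smul_mul_assoc, map_smul]
  have hφsum : ∀ (s : Finset (List ℕ)) (g : List ℕ → C.A (X.prod W)),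
      φ (∑ i ∈ s, g i) = ∑ i ∈ s, φ (g i) := by
    intro s g
    simp only [φ]
    rw [Finset.sum_mul, map_sum]
  have hφα : ∀ m ≤ d, φ (α m) = if m = d then q • l.prod else 0 := by
    intro m hm
    have h3 : ∀ r, HasDegree C (h ^ b m * h ^ e) r → φ (α m) = r • p m := by
      intro r hr
      simp only [φ, α]
      rw [TheoryData.ext, mul_assoc, ← map_mul, C.proj_left, (hr X).2, mul_smul_comm, mul_one]
    split_ifs with hmd
    · subst hmd
      rw [h3 q (by rw [hbd, pow_zero, one_mul]; exact hdeg), hpd]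
    · rw [h3 0, zero_smul]
      rw [← pow_add]
      refine hasDegree_of_ne (pow_mem_gr h1 _) ?_
      have := hb m d (by omega) le_rfl
      omega
  -- the letters
  let x : ℕ → C.A ((X.prod W).prod (X.prod W)) := fun j =>
    ∑ i ∈ (Finset.range d).filter (fun i => w[i]? = some j), Δ i
  have hx : ∀ j, x j ∈ I _ ∧ C.Deg (X.prod W).dim (x j) := by
    intro j
    constructor
    · refine Submodule.sum_mem _ fun i hi => ?_
      rw [Finset.mem_filter, Finset.mem_range] at hi
      exact (hΔ i hi.1).1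
    · refine Submodule.sum_mem _ fun i hi => ?_
      rw [Finset.mem_filter, Finset.mem_range] at hi
      exact (hΔ i hi.1).2
  have hact : ∀ j m, m ≤ d → C.act (x j) (α m) =
      if w[m]? = some j then q • α (m + 1) else 0 := by
    intro j m hm
    have e1 : ∀ i ∈ (Finset.range d).filter (fun i => w[i]? = some j),
        C.act (Δ i) (α m) = if i = m then q • α (m + 1) else 0 := by
      intro i hi
      rw [Finset.mem_filter, Finset.mem_range] at hi
      exact hactΔ i hi.1 m hm
    simp only [x]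
    rw [act_sum, Finset.sum_congr rfl e1]
    by_cases h3 : w[m]? = some j
    · rw [if_pos h3, Finset.sum_eq_single m]
      · rw [if_pos rfl]
      · intro i _ hi
        rw [if_neg hi]
      · intro hk'
        exfalso
        apply hk'
        rw [Finset.mem_filter, Finset.mem_range]
        exact ⟨(List.getElem?_eq_some_iff.1 h3).1, h3⟩
    · rw [if_neg h3]
      refine Finset.sum_eq_zero fun i hi => ?_
      rw [Finset.mem_filter] at hi
      rw [if_neg]
      rintro rfl
      exact h3 hi.2
  -- the words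
  have hword : ∀ (w' : List ℕ) (m : ℕ), m ≤ d → φ (C.act (compWord C x w') (α m)) =
      if w' = w.drop m then q ^ (d - m + 1) • l.prod else 0 := by
    intro w'
    induction w' with
    | nil =>
      intro m hm
      rw [compWord, act_dg, hφα m hm]
      rcases eq_or_lt_of_le hm with h3 | h3
      · subst h3
        rw [if_pos rfl, if_pos (by simp [hdw]), Nat.sub_self, zero_add, pow_one]
      · rw [if_neg h3.ne, if_neg]
        intro h4
        have h5 : (w.drop m).length = 0 := by rw [← h4]; rfl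
        rw [List.length_drop] at h5
        omega
    | cons j w' ih =>
      intro m hm
      rw [compWord, C.act_comp, hact j m hm]
      by_cases h3 : w[m]? = some j
      · have hkd : m < d := (List.getElem?_eq_some_iff.1 h3).1
        have h5 : w.drop m = j :: w.drop (m + 1) := by
          rw [List.drop_eq_getElem_cons hkd, (List.getElem?_eq_some_iff.1 h3).2]
        rw [if_pos h3, act_map_smul, hφs, ih (m + 1) (by omega), h5]
        by_cases h6 : w' = w.drop (m + 1)
        · rw [if_pos h6, if_pos (by rw [h6]), smul_smul, ← pow_succ']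
          congr 2
          omega
        · rw [if_neg h6, if_neg (by simpa using h6), smul_zero]
      · rw [if_neg h3, TheoryData.act_map_zero, hφ0, if_neg]
        intro h4
        apply h3
        have h5 : (j :: w')[0]? = (w.drop m)[0]? := by rw [h4]
        rw [List.getElem?_drop, add_zero] at h5
        rw [← h5]
        rfl
  have h3 := hf (X.prod W) x hx
  have h4 : φ (C.act (compPoly C x f) (α 0)) = f w • (q ^ (d + 1) • l.prod) := by
    rw [compPoly, Finsupp.sum, act_sum, hφsum]
    have e1 : ∀ w' ∈ f.support, φ (C.act (f w' • compWord C x w') (α 0)) =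
        if w' = w then f w • (q ^ (d + 1) • l.prod) else 0 := by
      intro w' _
      have h5 : C.act (f w' • compWord C x w') (α 0) = f w' • C.act (compWord C x w') (α 0) := by
        rw [← actB_apply, ← actB_apply, map_smul, LinearMap.smul_apply]
      rw [h5, hφs, hword w' 0 (Nat.zero_le _), List.drop_zero, Nat.sub_zero]
      split_ifs with h
      · rw [h]
      · rw [smul_zero]
    rw [Finset.sum_congr rfl e1, Finset.sum_ite_eq', if_pos (Finsupp.mem_support_iff.2 hw)]
  rw [h3, C.act_zero, hφ0] at h4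
  exact hne (smul_cancel (pow_ne_zero _ hq) (smul_cancel hw h4.symm))

end Pool.Agent.X308.U
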